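import Pool.Agent.Y749.AH.Main2

/-!
# All lattices of spacings at once

Assume RH. The hand-in `OnePointCriterion` characterises, for one given `s > 0`, the property 'almost all
normalised spacings are near `s ℤ`' (along a filter `l` of values of `T`). Here the set of all such `s` is
determined: it is empty, or it is exactly `{s₀ / m : m ≥ 1}` with a single `s₀ ≤ 1/2`. If `s₀ > 1/4` is such a
lattice constant, for instance if the alternative hypothesis holds for almost all spacings (`s₀ = 1/2`), then for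
every `s` not of the form `s₀ / m` a positive proportion of the spacings stays away from `s ℤ`, at all large
heights along `l`. Finally, for `s > 1/2` a positive proportion of all the normalised differences of zeros in every
long window, located anywhere, is away from every coset `b + s ℤ`, uniformly in the coset.

The periods of the (weak) form factor form a discrete group without elements in `(0, 2)`, because of
Montgomery's theorem.
-/

set_option autoImplicit false

open Filter Set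
open Complex (I)

namespace Pool.Agent.Results.MP_f0209c_nt.AllLattices

/-- multiplicity of `s` as a zero of the Riemann zeta function (order of vanishing at `s`) -/
noncomputable def zmult (s : ℂ) : ℕ := analyticOrderNatAt riemannZeta s

/-- the number of nontrivial zeros of `ζ` with ordinate in `(0, t]`, with multiplicity -/
noncomputable def NZ (t : ℝ) : ℕ :=
  ∑ᶠ s ∈ {s : ℂ | riemannZeta s = 0 ∧ 0 < s.re ∧ s.re < 1 ∧ 0 < s.im ∧ s.im ≤ t}, zmult s

/-- for `j ≥ 1`: the `j`-th positive ordinate `γ j` of a nontrivial zero of `ζ`, the ordinates being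
listed in nondecreasing order and repeated according to multiplicity -/
noncomputable def γ (j : ℕ) : ℝ := sInf {t : ℝ | j ≤ NZ t}

/-- the normalised spacings `d_j = γ_{j+1} log γ_{j+1} / 2π - γ_j log γ_j / 2π` -/
noncomputable def d (j : ℕ) : ℝ :=
  (γ (j + 1) * Real.log (γ (j + 1)) - γ j * Real.log (γ j)) / (2 * Real.pi)

/-- the normalised differences `(γ_i - γ_j) log T / 2π` -/
noncomputable def x (T : ℝ) (i j : ℕ) : ℝ := (γ i - γ j) * Real.log T / (2 * Real.pi)

/-- the number of pairs `(i, j)`, `1 ≤ i, j ≤ N(T)`, whose normalised difference lies in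
`[a, a + R]` and has distance at least `ε` to the coset `b + s ℤ` -/
noncomputable def W (T a R b s ε : ℝ) : ℕ :=
  {p : ℕ × ℕ | (1 ≤ p.1 ∧ p.1 ≤ NZ T) ∧ (1 ≤ p.2 ∧ p.2 ≤ NZ T) ∧
    a ≤ x T p.1 p.2 ∧ x T p.1 p.2 ≤ a + R ∧ ∀ k : ℤ, ε ≤ |x T p.1 p.2 - b - k * s|}.ncard

/-- the number of the spacings `d_j`, `1 ≤ j ≤ N(T)`, with distance at least `ε` to `s ℤ` -/
noncomputable def far (s ε T : ℝ) : ℕ :=
  {j : ℕ | 1 ≤ j ∧ j ≤ NZ T ∧ ∀ k : ℤ, ε ≤ |d j - k * s|}.ncard

/-- almost all spacings are near `s ℤ`, along the filter `l` of values of `T` -/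
def Spacings (l : Filter ℝ) (s : ℝ) : Prop := ∀ ε η : ℝ, 0 < ε → 0 < η → ∀ᶠ T in l,
  (far s ε T : ℝ) ≤ η * NZ T

lemma spac_eq (l : Filter ℝ) (s : ℝ) : Spacings l s ↔ Pool.Agent.Y749.AH.M.Spacings l s := Iff.rfl

lemma lattices (hRH : RiemannHypothesis) {l : Filter ℝ} (hl : l ≤ atTop) (hne : l.NeBot) :
    (∀ s : ℝ, 0 < s → ¬ Spacings l s) ∨
    ∃ s0 : ℝ, 0 < s0 ∧ s0 ≤ 1 / 2 ∧
      ∀ s : ℝ, 0 < s → (Spacings l s ↔ ∃ m : ℕ, 1 ≤ m ∧ s = s0 / m) := by
  have := hne
  exact Pool.Agent.Y749.AH.M.lattices hRH hl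

lemma far_anti {s ε ε' T : ℝ} (h : ε ≤ ε') : far s ε' T ≤ far s ε T := by
  refine Set.ncard_le_ncard ?_ ((Set.finite_Iic (NZ T)).subset fun _ hn => hn.2.1)
  rintro j ⟨h1, h2, h3⟩
  exact ⟨h1, h2, fun k => h.trans (h3 k)⟩

lemma spac_mono {l l' : Filter ℝ} (h : l' ≤ l) {s : ℝ} (hs : Spacings l s) : Spacings l' s :=
  fun ε η hε hη => h (hs ε η hε hη)

/-- if there is no positive proportion away from `s ℤ` then along a finer filter almost all spacings are
near `s ℤ` -/
lemma finer {l : Filter ℝ} {s : ℝ}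
    (h : ¬ ∃ ε : ℝ, 0 < ε ∧ ∀ᶠ T in l, ε * NZ T ≤ far s ε T) :
    ∃ l' : Filter ℝ, l' ≤ l ∧ l'.NeBot ∧ Spacings l' s := by
  push Not at h
  have hA : ∀ ε : ℝ, 0 < ε → ∃ᶠ T in l, (far s ε T : ℝ) < ε * NZ T := by
    intro ε hε
    have := h ε hε
    simpa using this
  have hdir : Directed (· ≥ ·)
      (fun ε : {ε : ℝ // 0 < ε} => l ⊓ 𝓟 {T : ℝ | (far s ε T : ℝ) < ε * NZ T}) := by
    intro a b
    refine ⟨⟨min a.1 b.1, lt_min a.2 b.2⟩, ?_, ?_⟩
    · refine inf_le_inf_left l (principal_mono.2 fun T hT => ?_)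
      change (far s (min a.1 b.1) T : ℝ) < min a.1 b.1 * NZ T at hT
      change (far s a.1 T : ℝ) < a.1 * NZ T
      calc (far s a.1 T : ℝ) ≤ far s (min a.1 b.1) T := by exact_mod_cast far_anti (min_le_left _ _)
        _ < min a.1 b.1 * NZ T := hT
        _ ≤ a.1 * NZ T := by gcongr; exact min_le_left _ _
    · refine inf_le_inf_left l (principal_mono.2 fun T hT => ?_)
      change (far s (min a.1 b.1) T : ℝ) < min a.1 b.1 * NZ T at hT
      change (far s b.1 T : ℝ) < b.1 * NZ T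
      calc (far s b.1 T : ℝ) ≤ far s (min a.1 b.1) T := by exact_mod_cast far_anti (min_le_right _ _)
        _ < min a.1 b.1 * NZ T := hT
        _ ≤ b.1 * NZ T := by gcongr; exact min_le_right _ _
  have : Nonempty {ε : ℝ // 0 < ε} := ⟨⟨1, one_pos⟩⟩
  refine ⟨⨅ ε : {ε : ℝ // 0 < ε}, l ⊓ 𝓟 {T : ℝ | (far s ε T : ℝ) < ε * NZ T}, ?_, ?_, ?_⟩
  · exact (iInf_le _ ⟨1, one_pos⟩).trans inf_le_left
  · refine Filter.iInf_neBot_of_directed' hdir fun ε => ?_
    exact Filter.frequently_mem_iff_neBot.1 (hA ε.1 ε.2)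
  · intro ε η hε hη
    have hm : 0 < min ε η := lt_min hε hη
    have h1 : (⨅ e : {e : ℝ // 0 < e}, l ⊓ 𝓟 {T : ℝ | (far s e T : ℝ) < e * NZ T}) ≤
        𝓟 {T : ℝ | (far s (min ε η) T : ℝ) < min ε η * NZ T} :=
      (iInf_le _ (⟨min ε η, hm⟩ : {e : ℝ // 0 < e})).trans inf_le_right
    filter_upwards [h1 (mem_principal_self _)] with T hT0
    have hT : (far s (min ε η) T : ℝ) < min ε η * NZ T := hT0
    calc (far s ε T : ℝ) ≤ far s (min ε η) T := by exact_mod_cast far_anti (min_le_left _ _)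
      _ ≤ min ε η * NZ T := hT.le
      _ ≤ η * NZ T := by gcongr; exact min_le_right _ _

/-- **All lattices of spacings.** -/
theorem result (hRH : RiemannHypothesis) :
    -- the set of all lattice constants
    (∀ l : Filter ℝ, l ≤ atTop → l.NeBot →
      (∀ s : ℝ, 0 < s → ¬ Spacings l s) ∨
      ∃ s0 : ℝ, 0 < s0 ∧ s0 ≤ 1 / 2 ∧
        ∀ s : ℝ, 0 < s → (Spacings l s ↔ ∃ m : ℕ, 1 ≤ m ∧ s = s0 / m)) ∧
    -- one lattice constant above `1/4` excludes all others, with a positive proportion at all large heights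
    (∀ l : Filter ℝ, l ≤ atTop → ∀ s0 : ℝ, 1 / 4 < s0 → Spacings l s0 →
      ∀ s : ℝ, 0 < s → (∀ m : ℕ, 1 ≤ m → s ≠ s0 / m) →
        ∃ ε : ℝ, 0 < ε ∧ ∀ᶠ T in l, ε * NZ T ≤ far s ε T) ∧
    -- differences in distant windows, uniformly in the coset
    (∀ s : ℝ, 1 / 2 < s → ∃ ε R0 : ℝ, 0 < ε ∧ 0 < R0 ∧
      ∀ R a : ℝ, R0 ≤ R → ∀ᶠ T in atTop, ∀ b : ℝ, ε * R * NZ T ≤ W T a R b s ε) := by
  refine ⟨fun l hl hne => lattices hRH hl hne, ?_, fun s hs => ?_⟩
  · intro l hl s0 hs0 h0 s hs hm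
    by_contra hcon
    obtain ⟨l', hl', hne, h1⟩ := finer hcon
    rcases lattices hRH (hl'.trans hl) hne with h | ⟨t, ht, ht2, h⟩
    · exact h s hs h1
    · obtain ⟨m, hm1, e1⟩ := (h s0 (by linarith)).1 (spac_mono hl' h0)
      obtain ⟨n, hn1, e2⟩ := (h s hs).1 h1
      have hm2 : m = 1 := by
        by_contra hm3
        have hm4 : (2 : ℝ) ≤ m := by exact_mod_cast (show 2 ≤ m by omega)
        have : s0 ≤ 1 / 4 := by
          rw [e1, div_le_iff₀ (by linarith)]
          linarith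
        linarith
      subst hm2
      have e3 : t = s0 := by rw [e1]; simp
      exact hm n hn1 (by rw [e2, e3])
  · exact Pool.Agent.Y749.AH.M.distant hRH (by linarith) (Or.inl hs)

end Pool.Agent.Results.MP_f0209c_nt.AllLattices
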