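import Pool.Agent.Q173.NL.Disp

/-!
# The spacings of the zeta zeros do not follow any pattern of tight discrepancy

Let `0 < γ_1 ≤ γ_2 ≤ …` be the ordinates of the nontrivial zeros of `ζ`, with multiplicity, and
`d_n = (γ_{n+1} log γ_{n+1} - γ_n log γ_n) / 2π` the normalised spacings.  The Alternative Hypothesis
says that `d_n - a_n → 0` for a sequence `a` of positive half-integers.  Here nothing is assumed, not
even the Riemann hypothesis, and `a` is an arbitrary real sequence, which may depend on `N`, as well as
the slope `b` and the constant `c`: if the sums `a_1 + … + a_{n-1}` are near the line `b n + c`, in the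
sense that the differences are tight (for every `η > 0` they exceed the constant `K η` for at most
`η N` of the indices `n ≤ N`), then `|d_n - a_n| ≥ ε` for at least `ε N` of the indices `n ≤ N`, where
`ε > 0` depends on the function `K` only.  In particular (`K` constant) this holds if the sums differ
from `b n + c` by a bounded amount, for instance for periodic, Sturmian and all other balanced patterns
of integers and half-odd integers.

Idea of the proof.  Otherwise the differences of the unfolded ordinates are, up to a small error for
almost all indices in a dyadic block, a constant plus the differences of a tight sequence.  Comparison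
with the distance to the `r`-th neighbour, which is `r + o(r)` for almost all indices, shows that the
constant is one, and then these distances would deviate from `r` by a quantity that is tight
uniformly in `r`; but by the unconditional central limit theorem for them it is of size
`√(log r) / π`.
-/

set_option autoImplicit false

open Filter

namespace Pool.Agent.Results.MP_f0209c_nt.BoundedDiscrepancy

/-- multiplicity of `s` as a zero of the Riemann zeta function (order of vanishing at `s`) -/
noncomputable def zmult (s : ℂ) : ℕ := analyticOrderNatAt riemannZeta s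

/-- the number of nontrivial zeros of `ζ` with ordinate in `(0, t]`, with multiplicity -/
noncomputable def NZ (t : ℝ) : ℕ :=
  ∑ᶠ s ∈ {s : ℂ | riemannZeta s = 0 ∧ 0 < s.re ∧ s.re < 1 ∧ 0 < s.im ∧ s.im ≤ t}, zmult s

/-- for `n ≥ 1`: the `n`-th positive ordinate `γ n` of a nontrivial zero of `ζ`, the ordinates being
listed in nondecreasing order and repeated according to multiplicity -/
noncomputable def γ (n : ℕ) : ℝ := sInf {t : ℝ | n ≤ NZ t}

/-- the normalised spacings `d_n = γ_{n+1} log γ_{n+1} / 2π - γ_n log γ_n / 2π` -/
noncomputable def d (n : ℕ) : ℝ :=
  (γ (n + 1) * Real.log (γ (n + 1)) - γ n * Real.log (γ n)) / (2 * Real.pi)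

/-- **Theorem.** For every function `K` there is `ε > 0` such that for all large `N`, all real
sequences `a` and all real `b`, `c`: if for every `η > 0` the inequality
`|a_1 + … + a_{n-1} - (b n + c)| > K η` holds for at most `η N` indices `n ≤ N`, then `|d_n - a_n| ≥ ε`
holds for at least `ε N` indices `n ≤ N`. -/
theorem result (K : ℝ → ℝ) : ∃ ε : ℝ, 0 < ε ∧ ∀ᶠ N : ℕ in atTop, ∀ (a : ℕ → ℝ) (b c : ℝ),
    (∀ η : ℝ, 0 < η → ({n : ℕ | 1 ≤ n ∧ n ≤ N ∧
      K η < |∑ j ∈ Finset.Ico 1 n, a j - (b * n + c)|}.ncard : ℝ) ≤ η * N) →
    ε * N ≤ ({n : ℕ | 1 ≤ n ∧ n ≤ N ∧ ε ≤ |d n - a n|}.ncard : ℝ) :=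
  Pool.Agent.Q173.NL.disc K

end Pool.Agent.Results.MP_f0209c_nt.BoundedDiscrepancy
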