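import Pool.Agent.Q31.HM.Proc

/-!
# The spacings of the zeta zeros do not follow any pattern with short memory (RH)

Assume RH, as the problem does.  Let `d_n` be the normalised spacings and let `a_n` be real numbers with
`d_n - a_n → 0` at almost all indices; on the Alternative Hypothesis the `a_n` can be taken to be positive
half-integers.  Let the sums `a_n + ⋯ + a_{n+k}`, `n ≤ N`, have a limit law `ν_k` for each `k`, for
`N → ∞` along a filter `l` (for instance a subsequence).  Then `ν_k` has second moment about `k + 1` of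
exact order `1 + log k`.  Hence the laws `ν_k` are not those of

* a function of a stationary Markov chain with finitely many states (reducible and periodic chains are
  allowed; deterministic patterns, such as periodic ones, are special cases),
* a process with covariances `ρ_j`, `∑ j |ρ_j| < ∞`,
* a process `M + D_j + Z_j - Z_{j+1}` with orthogonal centred `D_j` of constant variance (such as
  stationary martingale differences) and `Z_j` bounded in mean square.

So the Alternative Hypothesis cannot hold with a pattern of half-integers whose block sums have the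
frequencies of such a process.

Idea of the proof: the mean square of `d_n + ⋯ + d_{n+k} - (k + 1)` has exact order `1 + log k`
(Q31.GV, by counting zeros in windows at the zeros), and all the moments are bounded for fixed `k`, so
that the second moments pass to the limit.  For the three classes of processes the second moment is
`α k² + β k + O(1)`: for the Markov chains by the decomposition of `ℝ^m` with respect to the
contraction given by the transition matrix (mean ergodic theorem, twice).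
-/

set_option autoImplicit false

open Filter MeasureTheory Topology
open scoped BoundedContinuousFunction

namespace Pool.Agent.Results.MP_f0209c_nt.ShortMemory

/-- multiplicity of `s` as a zero of the Riemann zeta function (order of vanishing at `s`) -/
noncomputable def zmult (s : ℂ) : ℕ := analyticOrderNatAt riemannZeta s

/-- the number of nontrivial zeros of `ζ` with ordinate in `(0, t]`, with multiplicity -/
noncomputable def NZ (t : ℝ) : ℕ :=
  ∑ᶠ s ∈ {s : ℂ | riemannZeta s = 0 ∧ 0 < s.re ∧ s.re < 1 ∧ 0 < s.im ∧ s.im ≤ t}, zmult s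

/-- for `n ≥ 1`: the `n`-th positive ordinate `γ n` of a nontrivial zero of `ζ`, the ordinates being
listed in nondecreasing order and repeated according to multiplicity -/
noncomputable def γ (n : ℕ) : ℝ := sInf {t : ℝ | n ≤ NZ t}

/-- the normalised spacings `d_n = γ_{n+1} log γ_{n+1} / 2π - γ_n log γ_n / 2π` -/
noncomputable def d (n : ℕ) : ℝ :=
  (γ (n + 1) * Real.log (γ (n + 1)) - γ n * Real.log (γ n)) / (2 * Real.pi)

/-- the proportion of the indices `1 ≤ n ≤ N` with `P n` -/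
noncomputable def freq (N : ℕ) (P : ℕ → Prop) : ℝ :=
  ({n : ℕ | 1 ≤ n ∧ n ≤ N ∧ P n}.ncard : ℝ) / N

/-- `a_n - d_n` tends to `0` at almost all indices, for `N → ∞` along `l`: for each `ε > 0` the
proportion of the `n ≤ N` with `|a_n - d_n| ≥ ε` tends to `0` -/
def Near (l : Filter ℕ) (a : ℕ → ℝ) : Prop :=
  ∀ ε : ℝ, 0 < ε → Tendsto (fun N => freq N fun n => ε ≤ |a n - d n|) l (𝓝 0)

/-- `ν k` is the limit law of the sums `a_n + ⋯ + a_{n+k}`, `1 ≤ n ≤ N`, for `N → ∞` along `l` (weak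
convergence) -/
def Law (l : Filter ℕ) (a : ℕ → ℝ) (ν : ℕ → Measure ℝ) : Prop :=
  ∀ (k : ℕ) (f : ℝ →ᵇ ℝ), Tendsto (fun N : ℕ =>
    (∑ n ∈ Finset.Icc 1 N, f (∑ j ∈ Finset.range (k + 1), a (n + j))) / N) l (𝓝 (∫ x, f x ∂ν k))

/-- A stationary Markov chain with `m` states: the transition probabilities `P` and the stationary
distribution `p`. -/
structure Chain (m : ℕ) where
  P : Fin m → Fin m → ℝ
  p : Fin m → ℝ
  P_nonneg : ∀ x y, 0 ≤ P x y
  P_sum : ∀ x, ∑ y, P x y = 1
  p_nonneg : ∀ x, 0 ≤ p x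
  p_sum : ∑ x, p x = 1
  stationary : ∀ y, ∑ x, p x * P x y = p y

/-- the probability of the path `w_0, …, w_k` -/
def Chain.prob {m : ℕ} (X : Chain m) {k : ℕ} (w : Fin (k + 1) → Fin m) : ℝ :=
  X.p (w 0) * ∏ i : Fin k, X.P (w i.castSucc) (w i.succ)

/-- the law of `f(X_0) + ⋯ + f(X_k)` -/
noncomputable def Chain.law {m : ℕ} (X : Chain m) (f : Fin m → ℝ) (k : ℕ) : Measure ℝ :=
  ∑ w : Fin (k + 1) → Fin m, ENNReal.ofReal (X.prob w) • Measure.dirac (∑ i, f (w i))

open Classical in
/-- the probability that `f(X_0) + ⋯ + f(X_k) = v` -/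
noncomputable def Chain.probSum {m : ℕ} (X : Chain m) (f : Fin m → ℝ) (k : ℕ) (v : ℝ) : ℝ :=
  ∑ w : Fin (k + 1) → Fin m, if ∑ i, f (w i) = v then X.prob w else 0

/-- the law of `X_0 + ⋯ + X_k` for a process `X` on a probability space -/
noncomputable def sumLaw {Ω : Type} [MeasurableSpace Ω] (μ : Measure Ω) (X : ℕ → Ω → ℝ) (k : ℕ) :
    Measure ℝ :=
  μ.map fun ω => ∑ j ∈ Finset.range (k + 1), X j ω

/-- constant mean `M`, covariances `ρ_j` of `X_i` and `X_{i+j}`, and `∑ j |ρ_j| < ∞` -/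
def SummableCov {Ω : Type} [MeasurableSpace Ω] (μ : Measure Ω) (X : ℕ → Ω → ℝ) : Prop :=
  (∀ j, MemLp (X j) 2 μ) ∧ ∃ (M : ℝ) (ρ : ℕ → ℝ), (∀ j, ∫ ω, X j ω ∂μ = M) ∧
    (∀ i j, ∫ ω, X i ω * X (i + j) ω ∂μ = M ^ 2 + ρ j) ∧ Summable fun j : ℕ => j * |ρ j|

/-- `X_j = M + D_j + Z_j - Z_{j+1}` with centred orthogonal `D_j` of constant variance, and `Z_j`
bounded in mean square -/
def OrthCob {Ω : Type} [MeasurableSpace Ω] (μ : Measure Ω) (X : ℕ → Ω → ℝ) : Prop :=
  ∃ (D Z : ℕ → Ω → ℝ) (M s B : ℝ), (X = fun j ω => M + D j ω + (Z j ω - Z (j + 1) ω)) ∧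
    (∀ j, MemLp (D j) 2 μ) ∧ (∀ j, MemLp (Z j) 2 μ) ∧ (∀ j, ∫ ω, D j ω ∂μ = 0) ∧
    (∀ i j, i ≠ j → ∫ ω, D i ω * D j ω ∂μ = 0) ∧ (∀ j, ∫ ω, D j ω * D j ω ∂μ = s) ∧
    ∀ j, ∫ ω, Z j ω * Z j ω ∂μ ≤ B

/-- **Theorem.** Assume RH.
(1) Let `a_n` be close to the spacings `d_n` at almost all indices, and let `ν_k` be the limit laws of
`a_n + ⋯ + a_{n+k}`.  The second moment of `ν_k` about `k + 1` lies between `c (1 + log (k + 1))` and
`C (1 + log (k + 1))`, with absolute constants.
(2) These laws are not those of a function `f` of a stationary Markov chain with finitely many states.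
For some `k` and `v` the frequency of `a_n + ⋯ + a_{n+k} = v` does not tend to the probability of
`f(X_0) + ⋯ + f(X_k) = v`.
(3) They are not those of a process with covariances `ρ_j`, `∑ j |ρ_j| < ∞`, and not those of a process
`M + D_j + Z_j - Z_{j+1}` with orthogonal `D_j`. -/
theorem result (hRH : RiemannHypothesis) :
    (∃ c C : ℝ, 0 < c ∧ 0 < C ∧ ∀ (l : Filter ℕ) [l.NeBot], l ≤ atTop → ∀ a : ℕ → ℝ, Near l a →
      ∀ ν : ℕ → Measure ℝ, (∀ k, IsProbabilityMeasure (ν k)) → Law l a ν → ∀ k : ℕ,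
        Integrable (fun x : ℝ => (x - (k + 1 : ℕ)) ^ 2) (ν k) ∧
        c * (1 + Real.log (k + 1 : ℕ)) ≤ ∫ x : ℝ, (x - (k + 1 : ℕ)) ^ 2 ∂ν k ∧
        ∫ x : ℝ, (x - (k + 1 : ℕ)) ^ 2 ∂ν k ≤ C * (1 + Real.log (k + 1 : ℕ))) ∧
    ∀ (l : Filter ℕ) [l.NeBot], l ≤ atTop → ∀ a : ℕ → ℝ, Near l a →
      (∀ (m : ℕ) (X : Chain m) (f : Fin m → ℝ), ¬ Law l a (X.law f) ∧
        ∃ (k : ℕ) (v : ℝ), ¬ Tendsto (fun N => freq N fun n =>
          ∑ j ∈ Finset.range (k + 1), a (n + j) = v) l (𝓝 (X.probSum f k v))) ∧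
      ∀ (Ω : Type) [MeasurableSpace Ω] (μ : Measure Ω) [IsProbabilityMeasure μ] (X : ℕ → Ω → ℝ),
        SummableCov μ X ∨ OrthCob μ X → ¬ Law l a (sumLaw μ X) := by
  refine ⟨Pool.Agent.Q31.HM.var_lim hRH, fun l _ hl a ha => ⟨fun m X f => ?_, ?_⟩⟩
  · have h1 : ¬ Law l a (X.law f) := Pool.Agent.Q31.HM.no_chain hRH hl ha
      ⟨X.P, X.p, X.P_nonneg, X.P_sum, X.p_nonneg, X.p_sum, X.stationary⟩ f
    refine ⟨h1, ?_⟩
    by_contra hcon
    push Not at hcon
    refine h1 (Pool.Agent.Q31.HM.law_of_freq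
      ⟨X.P, X.p, X.P_nonneg, X.P_sum, X.p_nonneg, X.p_sum, X.stationary⟩ f hl fun k v => ?_)
    have h2 := hcon k v
    have e : X.probSum f k v = Pool.Agent.Q31.HM.wE
        ⟨X.P, X.p, X.P_nonneg, X.P_sum, X.p_nonneg, X.p_sum, X.stationary⟩ k
        (fun w => if ∑ i, f (w i) = v then 1 else 0) := by
      unfold Chain.probSum Pool.Agent.Q31.HM.wE
      refine Finset.sum_congr rfl fun w _ => ?_
      by_cases hw : ∑ i, f (w i) = v
      · simp only [hw, if_true, mul_one]
        rfl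
      · simp only [hw, if_false, mul_zero]
    rw [e] at h2
    exact h2
  · rintro Ω _ μ _ X (⟨hX, M, ρ, hM, hρ, hs⟩ | ⟨D, Z, M, s, B, rfl, hD, hZ, h0, h1, h2, h3⟩)
    · exact Pool.Agent.Q31.HM.no_cov hRH hl ha X hX M ρ hM hρ hs
    · exact Pool.Agent.Q31.HM.no_mart hRH hl ha D Z hD hZ M s B h0 h1 h2 h3

end Pool.Agent.Results.MP_f0209c_nt.ShortMemory
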